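import Pool.Agent.Helper42.LK.Defs

open Filter Topology NumberField

namespace Pool.Agent.Helper42.LK

/-- finite support of the positive part of the logarithm -/
theorem KPOT_supp_log {K : Type} [Field K] [NumberField K] {c : K} (hc : c ≠ 0) :
    (Function.support fun v : FinitePlace K => Real.log (v c)).Finite := by
  refine (FinitePlace.hasFiniteMulSupport hc).subset ?_
  intro v hv
  rw [Function.mem_support] at hv
  rw [Function.mem_mulSupport]
  intro h1
  apply hv
  rw [h1, Real.log_one]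

theorem KPOT_supp_max {K : Type} [Field K] [NumberField K] (c : K) :
    (Function.support fun v : FinitePlace K => Real.log (max (v c) 1)).Finite := by
  by_cases hc : c = 0
  · subst hc
    have h0 : (fun v : FinitePlace K => Real.log (max (v 0) 1)) = 0 := by
      funext v
      rw [FinitePlace.coe_apply, map_zero]
      simp
    rw [h0, Function.support_zero]
    exact Set.finite_empty
  · refine (KPOT_supp_log hc).subset ?_
    intro v hv
    rw [Function.mem_support] at hv ⊢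
    intro h1
    apply hv
    have hpos : 0 < v c := by
      rw [FinitePlace.coe_apply]
      exact (v.val.pos_iff).mpr hc
    have h2 : v c = 1 := Real.eq_one_of_pos_of_log_eq_zero hpos h1
    rw [h2, max_self, Real.log_one]

theorem KPOT_height {K : Type} [Field K] [NumberField K] (c : K) :
    Height.logHeight₁ c = ∑ᶠ v : FinitePlace K, Real.log (max (v c) 1) +
      ∑ w : InfinitePlace K, (w.mult : ℝ) * Real.log (max (w c) 1) := by
  rw [NumberField.logHeight₁_eq, add_comm]
  have h1 : ∀ v : FinitePlace K, Real.posLog (v c) = Real.log (max (v c) 1) := by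
    intro v
    rw [Real.posLog_eq_log_max_one (by rw [FinitePlace.coe_apply]; exact v.val.nonneg c),
      max_comm]
  have h2 : ∀ w : InfinitePlace K, Real.posLog (w c) = Real.log (max (w c) 1) := by
    intro w
    rw [Real.posLog_eq_log_max_one (apply_nonneg w c), max_comm]
  simp only [h1, h2]

theorem KPOT_prod {K : Type} [Field K] [NumberField K] {c : K} (hc : c ≠ 0) :
    ∑ᶠ v : FinitePlace K, Real.log (v c) +
      ∑ w : InfinitePlace K, (w.mult : ℝ) * Real.log (w c) = 0 := by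
  have h := NumberField.prod_abs_eq_one hc
  have hpos : ∀ v : FinitePlace K, 0 < v c := by
    intro v
    rw [FinitePlace.coe_apply]
    exact (v.val.pos_iff).mpr hc
  have hposw : ∀ w : InfinitePlace K, 0 < w c := by
    intro w
    exact InfinitePlace.pos_iff.mpr hc
  have h1 := congrArg Real.log h
  rw [Real.log_one, Real.log_mul, Real.log_finprod hpos, Real.log_prod] at h1
  · simp only [Real.log_pow] at h1
    rw [add_comm]
    exact h1
  · intro w _
    exact (pow_pos (hposw w) _).ne'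
  · exact (Finset.prod_pos fun w _ => pow_pos (hposw w) _).ne'
  · intro h0
    rw [h0, mul_zero] at h
    exact zero_ne_one h

/-- the local term at a finite place -/
noncomputable def KPOT_a {K : Type} [Field K] [NumberField K] (x : ℕ → K)
    (S : Finset (FinitePlace K)) (U : FinitePlace K → ℕ → ℝ) (k : ℕ) (v : FinitePlace K) : ℝ :=
  open Classical in if v ∈ S then U v k else Real.log (max (v (x k)) 1)

theorem KPOT_a_mem {K : Type} [Field K] [NumberField K] (x : ℕ → K)
    (S : Finset (FinitePlace K)) (U : FinitePlace K → ℕ → ℝ) (k : ℕ) (v : FinitePlace K)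
    (hv : v ∈ S) : KPOT_a x S U k v = U v k := if_pos hv

theorem KPOT_a_not {K : Type} [Field K] [NumberField K] (x : ℕ → K)
    (S : Finset (FinitePlace K)) (U : FinitePlace K → ℕ → ℝ) (k : ℕ) (v : FinitePlace K)
    (hv : v ∉ S) : KPOT_a x S U k v = Real.log (max (v (x k)) 1) := if_neg hv

theorem KPOT_a_supp {K : Type} [Field K] [NumberField K] (x : ℕ → K)
    (S : Finset (FinitePlace K)) (U : FinitePlace K → ℕ → ℝ) (k : ℕ) :
    (Function.support (KPOT_a x S U k)).Finite := by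
  refine (S.finite_toSet.union (KPOT_supp_max (x k))).subset ?_
  intro v hv
  by_cases hS : v ∈ S
  · exact Or.inl hS
  · right
    rw [Function.mem_support, KPOT_a_not x S U k v hS] at hv
    exact hv

theorem KPOT_sum_eq {K : Type} [Field K] [NumberField K] (f : FinitePlace K → ℝ)
    (T : Finset (FinitePlace K)) (hT : Function.support f ⊆ T) :
    ∑ᶠ v : FinitePlace K, f v = ∑ v ∈ T, f v :=
  finsum_eq_sum_of_support_subset f hT

/-- the total potential -/
noncomputable def KPOT_V {K : Type} [Field K] [NumberField K] (x : ℕ → K)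
    (S : Finset (FinitePlace K)) (U : FinitePlace K → ℕ → ℝ) (Ui : InfinitePlace K → ℕ → ℝ)
    (k : ℕ) : ℝ :=
  ∑ᶠ v : FinitePlace K, KPOT_a x S U k v + ∑ w : InfinitePlace K, (w.mult : ℝ) * Ui w k

theorem KPOT_step {K : Type} [Field K] [NumberField K] (x c : ℕ → K)
    (hc : ∀ k : ℕ, 1 ≤ k → c k ≠ 0) (S : Finset (FinitePlace K))
    (U : FinitePlace K → ℕ → ℝ) (D : FinitePlace K → ℝ) (Ui : InfinitePlace K → ℕ → ℝ) (C₀ : ℝ)
    (hS : ∀ v ∈ S, ∀ k : ℕ, 1 ≤ k → 4 * U v k - D v ≤ U v (2 * k) + Real.log (v (c k)))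
    (hN : ∀ v : FinitePlace K, v ∉ S → ∀ k : ℕ, 1 ≤ k →
      4 * Real.log (max (v (x k)) 1) ≤ Real.log (max (v (x (2 * k))) 1) + Real.log (v (c k)))
    (hI : ∀ w : InfinitePlace K, ∀ k : ℕ, 1 ≤ k →
      4 * Ui w k - C₀ ≤ Ui w (2 * k) + Real.log (w (c k)))
    (k : ℕ) (hk : 1 ≤ k) :
    4 * KPOT_V x S U Ui k - (∑ v ∈ S, D v + Module.finrank ℚ K * C₀) ≤
      KPOT_V x S U Ui (2 * k) := by
  classical
  set T : Finset (FinitePlace K) := S ∪ (KPOT_a_supp x S U k).toFinset ∪
    (KPOT_a_supp x S U (2 * k)).toFinset ∪ (KPOT_supp_log (hc k hk)).toFinset with hT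
  have hST : S ⊆ T := by
    intro v hv
    simp only [hT, Finset.mem_union]
    exact Or.inl (Or.inl (Or.inl hv))
  have e1 : ∑ᶠ v : FinitePlace K, KPOT_a x S U k v = ∑ v ∈ T, KPOT_a x S U k v := by
    apply KPOT_sum_eq
    intro v hv
    simp only [hT, Finset.coe_union, Set.Finite.coe_toFinset, Set.mem_union]
    exact Or.inl (Or.inl (Or.inr hv))
  have e2 : ∑ᶠ v : FinitePlace K, KPOT_a x S U (2 * k) v =
      ∑ v ∈ T, KPOT_a x S U (2 * k) v := by
    apply KPOT_sum_eq
    intro v hv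
    simp only [hT, Finset.coe_union, Set.Finite.coe_toFinset, Set.mem_union]
    exact Or.inl (Or.inr hv)
  have e3 : ∑ᶠ v : FinitePlace K, Real.log (v (c k)) = ∑ v ∈ T, Real.log (v (c k)) := by
    apply KPOT_sum_eq
    intro v hv
    simp only [hT, Finset.coe_union, Set.Finite.coe_toFinset, Set.mem_union]
    exact Or.inr hv
  have hpf := KPOT_prod (hc k hk)
  rw [e3] at hpf
  have hfin : ∑ v ∈ T, (4 * KPOT_a x S U k v - (if v ∈ S then D v else 0)) ≤
      ∑ v ∈ T, (KPOT_a x S U (2 * k) v + Real.log (v (c k))) := by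
    apply Finset.sum_le_sum
    intro v _
    by_cases hv : v ∈ S
    · rw [KPOT_a_mem x S U k v hv, KPOT_a_mem x S U (2 * k) v hv, if_pos hv]
      exact hS v hv k hk
    · rw [KPOT_a_not x S U k v hv, KPOT_a_not x S U (2 * k) v hv, if_neg hv, sub_zero]
      exact hN v hv k hk
  rw [Finset.sum_sub_distrib, Finset.sum_add_distrib, ← Finset.mul_sum] at hfin
  have hDs : ∑ v ∈ T, (if v ∈ S then D v else 0) = ∑ v ∈ S, D v := by
    rw [Finset.sum_ite_mem, Finset.inter_eq_right.mpr hST]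
  rw [hDs] at hfin
  have hinf : ∑ w : InfinitePlace K, (w.mult : ℝ) * (4 * Ui w k - C₀) ≤
      ∑ w : InfinitePlace K, (w.mult : ℝ) * (Ui w (2 * k) + Real.log (w (c k))) := by
    apply Finset.sum_le_sum
    intro w _
    exact mul_le_mul_of_nonneg_left (hI w k hk) (Nat.cast_nonneg _)
  have hd : ∑ w : InfinitePlace K, (w.mult : ℝ) = Module.finrank ℚ K := by
    have h := InfinitePlace.sum_mult_eq (K := K)
    exact_mod_cast h
  have e4 : ∑ w : InfinitePlace K, (w.mult : ℝ) * (4 * Ui w k - C₀) =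
      4 * ∑ w : InfinitePlace K, (w.mult : ℝ) * Ui w k - Module.finrank ℚ K * C₀ := by
    rw [← hd, Finset.sum_mul, Finset.mul_sum, ← Finset.sum_sub_distrib]
    apply Finset.sum_congr rfl
    intro w _
    ring
  have e5 : ∑ w : InfinitePlace K, (w.mult : ℝ) * (Ui w (2 * k) + Real.log (w (c k))) =
      ∑ w : InfinitePlace K, (w.mult : ℝ) * Ui w (2 * k) +
        ∑ w : InfinitePlace K, (w.mult : ℝ) * Real.log (w (c k)) := by
    rw [← Finset.sum_add_distrib]
    apply Finset.sum_congr rfl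
    intro w _
    ring
  rw [e4, e5] at hinf
  unfold KPOT_V
  rw [e1, e2]
  linarith

theorem KPOT_upper {K : Type} [Field K] [NumberField K] (x : ℕ → K) (S : Finset (FinitePlace K))
    (U : FinitePlace K → ℕ → ℝ) (Ui : InfinitePlace K → ℕ → ℝ)
    (hS : ∀ v ∈ S, ∃ C : ℝ, ∀ k : ℕ, 1 ≤ k → U v k ≤ Real.log (max (v (x k)) 1) + C)
    (hI : ∀ w : InfinitePlace K, ∃ C : ℝ, ∀ k : ℕ, 1 ≤ k →
      Ui w k ≤ Real.log (max (w (x k)) 1) + C) :
    ∃ C : ℝ, ∀ k : ℕ, 1 ≤ k → KPOT_V x S U Ui k ≤ Height.logHeight₁ (x k) + C := by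
  classical
  choose! CS hCS using hS
  choose CI hCI using hI
  refine ⟨∑ v ∈ S, CS v + ∑ w : InfinitePlace K, (w.mult : ℝ) * CI w, fun k hk => ?_⟩
  set T : Finset (FinitePlace K) := S ∪ (KPOT_a_supp x S U k).toFinset ∪
    (KPOT_supp_max (x k)).toFinset with hT
  have hST : S ⊆ T := by
    intro v hv
    simp only [hT, Finset.mem_union]
    exact Or.inl (Or.inl hv)
  have e1 : ∑ᶠ v : FinitePlace K, KPOT_a x S U k v = ∑ v ∈ T, KPOT_a x S U k v := by
    apply KPOT_sum_eq
    intro v hv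
    simp only [hT, Finset.coe_union, Set.Finite.coe_toFinset, Set.mem_union]
    exact Or.inl (Or.inr hv)
  have e2 : ∑ᶠ v : FinitePlace K, Real.log (max (v (x k)) 1) =
      ∑ v ∈ T, Real.log (max (v (x k)) 1) := by
    apply KPOT_sum_eq
    intro v hv
    simp only [hT, Finset.coe_union, Set.Finite.coe_toFinset, Set.mem_union]
    exact Or.inr hv
  have hfin : ∑ v ∈ T, KPOT_a x S U k v ≤
      ∑ v ∈ T, (Real.log (max (v (x k)) 1) + (if v ∈ S then CS v else 0)) := by
    apply Finset.sum_le_sum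
    intro v _
    by_cases hv : v ∈ S
    · rw [KPOT_a_mem x S U k v hv, if_pos hv]
      exact hCS v hv k hk
    · rw [KPOT_a_not x S U k v hv, if_neg hv, add_zero]
  rw [Finset.sum_add_distrib] at hfin
  have hDs : ∑ v ∈ T, (if v ∈ S then CS v else 0) = ∑ v ∈ S, CS v := by
    rw [Finset.sum_ite_mem, Finset.inter_eq_right.mpr hST]
  rw [hDs] at hfin
  have hinf : ∑ w : InfinitePlace K, (w.mult : ℝ) * Ui w k ≤
      ∑ w : InfinitePlace K, (w.mult : ℝ) * (Real.log (max (w (x k)) 1) + CI w) := by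
    apply Finset.sum_le_sum
    intro w _
    exact mul_le_mul_of_nonneg_left (hCI w k hk) (Nat.cast_nonneg _)
  have e5 : ∑ w : InfinitePlace K, (w.mult : ℝ) * (Real.log (max (w (x k)) 1) + CI w) =
      ∑ w : InfinitePlace K, (w.mult : ℝ) * Real.log (max (w (x k)) 1) +
        ∑ w : InfinitePlace K, (w.mult : ℝ) * CI w := by
    rw [← Finset.sum_add_distrib]
    apply Finset.sum_congr rfl
    intro w _
    ring
  rw [e5] at hinf
  unfold KPOT_V
  rw [KPOT_height, e1, e2]
  linarith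

theorem KPOT_lower {K : Type} [Field K] [NumberField K] (x : ℕ → K) (S : Finset (FinitePlace K))
    (U : FinitePlace K → ℕ → ℝ) (Ui : InfinitePlace K → ℕ → ℝ) (k : ℕ) :
    ∑ v ∈ S, U v k + ∑ w : InfinitePlace K, (w.mult : ℝ) * Ui w k ≤ KPOT_V x S U Ui k := by
  classical
  set T : Finset (FinitePlace K) := S ∪ (KPOT_a_supp x S U k).toFinset with hT
  have hST : S ⊆ T := by
    intro v hv
    simp only [hT, Finset.mem_union]
    exact Or.inl hv
  have e1 : ∑ᶠ v : FinitePlace K, KPOT_a x S U k v = ∑ v ∈ T, KPOT_a x S U k v := by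
    apply KPOT_sum_eq
    intro v hv
    simp only [hT, Finset.coe_union, Set.Finite.coe_toFinset, Set.mem_union]
    exact Or.inr hv
  have h1 : ∑ v ∈ S, U v k = ∑ v ∈ S, KPOT_a x S U k v := by
    apply Finset.sum_congr rfl
    intro v hv
    rw [KPOT_a_mem x S U k v hv]
  have h2 : ∑ v ∈ S, KPOT_a x S U k v ≤ ∑ v ∈ T, KPOT_a x S U k v := by
    apply Finset.sum_le_sum_of_subset_of_nonneg hST
    intro v _ hv
    rw [KPOT_a_not x S U k v hv]
    exact Real.log_nonneg (le_max_right _ _)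
  unfold KPOT_V
  rw [e1, h1]
  linarith

/-- telescoping -/
theorem KPOT_limit (V h : ℕ → ℝ) (C C' e : ℝ) (k : ℕ) (hk : 1 ≤ k)
    (hstep : ∀ k : ℕ, 1 ≤ k → 4 * V k - C ≤ V (2 * k))
    (hup : ∀ k : ℕ, 1 ≤ k → V k ≤ h k + C')
    (hlim : Tendsto (fun n : ℕ => h (k * 2 ^ n) / 4 ^ n) atTop (𝓝 ((k : ℝ) ^ 2 * e))) :
    V k - C / 3 ≤ (k : ℝ) ^ 2 * e := by
  have hk2 : ∀ n : ℕ, 1 ≤ k * 2 ^ n := fun n => Nat.mul_pos hk (by positivity)
  have hind : ∀ n : ℕ, V k - C / 3 ≤ (V (k * 2 ^ n) - C / 3) / 4 ^ n := by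
    intro n
    induction n with
    | zero => simp
    | succ n ih =>
      have h1 := hstep (k * 2 ^ n) (hk2 n)
      have h2 : 2 * (k * 2 ^ n) = k * 2 ^ (n + 1) := by ring
      rw [h2] at h1
      have h3 : V (k * 2 ^ n) - C / 3 ≤ (V (k * 2 ^ (n + 1)) - C / 3) / 4 := by linarith
      have h4 : (V (k * 2 ^ n) - C / 3) / 4 ^ n ≤
          ((V (k * 2 ^ (n + 1)) - C / 3) / 4) / 4 ^ n :=
        div_le_div_of_nonneg_right h3 (by positivity)
      have h5 : ((V (k * 2 ^ (n + 1)) - C / 3) / 4) / 4 ^ n =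
          (V (k * 2 ^ (n + 1)) - C / 3) / 4 ^ (n + 1) := by
        rw [div_div, ← pow_succ']
      linarith
  have hle : ∀ n : ℕ, V k - C / 3 ≤ h (k * 2 ^ n) / 4 ^ n + (C' - C / 3) * (1 / 4 : ℝ) ^ n := by
    intro n
    have h1 := hind n
    have h2 := hup (k * 2 ^ n) (hk2 n)
    have h3 : (V (k * 2 ^ n) - C / 3) / 4 ^ n ≤ (h (k * 2 ^ n) + C' - C / 3) / 4 ^ n :=
      div_le_div_of_nonneg_right (by linarith) (by positivity)
    have h4 : (h (k * 2 ^ n) + C' - C / 3) / 4 ^ n =
        h (k * 2 ^ n) / 4 ^ n + (C' - C / 3) * (1 / 4 : ℝ) ^ n := by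
      rw [one_div, inv_pow]
      ring
    linarith
  have hz : Tendsto (fun n : ℕ => (C' - C / 3) * (1 / 4 : ℝ) ^ n) atTop (𝓝 0) := by
    have h0 : Tendsto (fun n : ℕ => (1 / 4 : ℝ) ^ n) atTop (𝓝 0) :=
      tendsto_pow_atTop_nhds_zero_of_lt_one (by norm_num) (by norm_num)
    have h1 := h0.const_mul (C' - C / 3)
    rwa [mul_zero] at h1
  have hs := hlim.add hz
  rw [add_zero] at hs
  exact ge_of_tendsto' hs hle

theorem st_KPOT : ST_KPOT := by
  intro K _ _ x c e he hc S U D Ui C₀ hS hN hI hSup hIup k hk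
  obtain ⟨C', hC'⟩ := KPOT_upper x S U Ui hSup hIup
  have h1 := KPOT_limit (KPOT_V x S U Ui) (fun k => Height.logHeight₁ (x k))
    (∑ v ∈ S, D v + Module.finrank ℚ K * C₀) C' e k hk
    (fun k hk => KPOT_step x c hc S U D Ui C₀ hS hN hI k hk) hC' (he k hk)
  have h2 := KPOT_lower x S U Ui k
  linarith

end Pool.Agent.Helper42.LK
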