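import Pool.Agent.Helper42.LK.Defs

open NumberField Height

namespace Pool.Agent.Helper42.LK

open Pool.Agent.Helper42.LS

theorem KPL_ell {K : Type} [Field K] [CharZero K] (A B : K) (h : dsc A B ≠ 0) :
    (ECK A B).IsElliptic := by
  constructor
  rw [isUnit_iff_ne_zero]
  have e : (ECK A B).Δ = -16 * dsc A B := by
    simp only [WeierstrassCurve.Δ, WeierstrassCurve.b₂, WeierstrassCurve.b₄, WeierstrassCurve.b₆,
      WeierstrassCurve.b₈, ECK, dsc]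
    ring
  rw [e]
  exact mul_ne_zero (by norm_num) h

theorem KPL_map {K : Type} [Field K] (A B s t u : K) :
    (fun i => MvPolynomial.eval ![s, t, u] (WeierstrassCurve.addSubMap (ECK A B) i)) =
      ![s ^ 2 - 2 * A * s * u - 4 * B * t * u + A ^ 2 * u ^ 2,
        2 * t * s + 2 * A * t * u + 4 * B * u ^ 2, t ^ 2 - 4 * s * u] := by
  funext i
  fin_cases i
  · simp [WeierstrassCurve.addSubMap, WeierstrassCurve.b₄, WeierstrassCurve.b₆,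
      WeierstrassCurve.b₈, ECK]
  · simp [WeierstrassCurve.addSubMap, WeierstrassCurve.b₂, WeierstrassCurve.b₄,
      WeierstrassCurve.b₆, ECK]
  · simp [WeierstrassCurve.addSubMap]

theorem KPL_sum {K : Type} [Field K] (A B x₁ x₂ y₁ y₂ X3 X4 : K) (hne : x₁ ≠ x₂)
    (c1 : y₁ ^ 2 = x₁ ^ 3 + 0 * x₁ ^ 2 + A * x₁ + B)
    (c2 : y₂ ^ 2 = x₂ ^ 3 + 0 * x₂ ^ 2 + A * x₂ + B)
    (h3 : X3 = ((y₁ - y₂) / (x₁ - x₂)) ^ 2 - 0 - x₁ - x₂)
    (h4 : X4 = ((y₁ + y₂) / (x₁ - x₂)) ^ 2 - 0 - x₁ - x₂) :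
    (x₁ - x₂) ^ 2 * (X3 + X4) = 2 * (x₁ + x₂) * (x₁ * x₂) + 2 * A * (x₁ + x₂) + 4 * B ∧
    (x₁ - x₂) ^ 2 * (X3 * X4) =
      (x₁ * x₂) ^ 2 - 2 * A * (x₁ * x₂) - 4 * B * (x₁ + x₂) + A ^ 2 := by
  have hD : x₁ - x₂ ≠ 0 := sub_ne_zero.mpr hne
  have e3 : (x₁ - x₂) ^ 2 * X3 = (y₁ - y₂) ^ 2 - (x₁ + x₂) * (x₁ - x₂) ^ 2 := by
    rw [h3]
    field_simp
    ring
  have e4 : (x₁ - x₂) ^ 2 * X4 = (y₁ + y₂) ^ 2 - (x₁ + x₂) * (x₁ - x₂) ^ 2 := by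
    rw [h4]
    field_simp
    ring
  constructor
  · rw [mul_add, e3, e4]
    linear_combination 2 * c1 + 2 * c2
  · have hD2 : (x₁ - x₂) ^ 2 ≠ 0 := pow_ne_zero 2 hD
    apply mul_left_cancel₀ hD2
    have e5 : (x₁ - x₂) ^ 2 * ((x₁ - x₂) ^ 2 * (X3 * X4)) =
        ((x₁ - x₂) ^ 2 * X3) * ((x₁ - x₂) ^ 2 * X4) := by ring
    rw [e5, e3, e4]
    have c3 : y₁ ^ 2 - y₂ ^ 2 = (x₁ - x₂) * (x₁ ^ 2 + x₁ * x₂ + x₂ ^ 2 + A) := by
      rw [c1, c2]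
      ring
    have c4 : y₁ ^ 2 + y₂ ^ 2 = x₁ ^ 3 + x₂ ^ 3 + A * (x₁ + x₂) + 2 * B := by
      rw [c1, c2]
      ring
    have e6 : ((y₁ - y₂) ^ 2 - (x₁ + x₂) * (x₁ - x₂) ^ 2) *
        ((y₁ + y₂) ^ 2 - (x₁ + x₂) * (x₁ - x₂) ^ 2) =
        (y₁ ^ 2 - y₂ ^ 2) ^ 2 - 2 * (x₁ + x₂) * (x₁ - x₂) ^ 2 * (y₁ ^ 2 + y₂ ^ 2) +
          (x₁ + x₂) ^ 2 * (x₁ - x₂) ^ 4 := by ring
    rw [e6, c3, c4]
    ring

theorem KPL_dbl {K : Type} [Field K] [CharZero K] (A B x y X : K) (hy : y ≠ 0)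
    (c1 : y ^ 2 = x ^ 3 + 0 * x ^ 2 + A * x + B)
    (h : X = ((3 * x ^ 2 + 2 * 0 * x + A) / (2 * y)) ^ 2 - 0 - 2 * x) :
    cu A B x ≠ 0 ∧ X = th A B x / (4 * cu A B x) := by
  have hcu : cu A B x = y ^ 2 := by
    rw [c1]
    unfold cu
    ring
  have hcne : cu A B x ≠ 0 := by
    rw [hcu]
    exact pow_ne_zero 2 hy
  refine ⟨hcne, ?_⟩
  have h2 : (2 : K) ≠ 0 := by norm_num
  have hth : th A B x = (3 * x ^ 2 + A) ^ 2 - 8 * x * y ^ 2 := by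
    rw [c1]
    unfold th
    ring
  rw [hth, hcu, h]
  field_simp
  ring

theorem KPL_lh {K : Type} [Field K] [NumberField K] (x₁ x₂ : K) (C₁ : ℝ)
    (h : ∀ {a b c d : K}, ![a, b] ≠ 0 → ![c, d] ≠ 0 →
      |logHeight ![a * c, a * d + b * c, b * d] - (logHeight ![a, b] + logHeight ![c, d])| ≤ C₁) :
    |logHeight ![x₁ * x₂, x₁ + x₂, 1] - (logHeight₁ x₁ + logHeight₁ x₂)| ≤ C₁ := by
  have h1 : ![x₁, (1 : K)] ≠ 0 := by simp
  have h2 : ![x₂, (1 : K)] ≠ 0 := by simp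
  have h3 := h h1 h2
  rw [mul_one, mul_one, one_mul] at h3
  rw [logHeight₁_eq_logHeight, logHeight₁_eq_logHeight]
  exact h3

theorem st_KPL : ST_KPL := by
  intro K _ _ A B hAB
  have := KPL_ell A B hAB
  obtain ⟨C₁, hC₁⟩ := abs_logHeight_sym2_sub_le K
  obtain ⟨C₂, hC₂⟩ :=
    WeierstrassCurve.abs_logHeight_addSubMap_sub_two_mul_logHeight_le (ECK A B)
  refine ⟨C₂ + 3 * C₁, fun x y hxy => ⟨?_, ?_⟩⟩
  · intro k l hl hlk
    have hne := hxy.xne k l hl hlk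
    obtain ⟨e1, e2⟩ := KPL_sum A B (x k) (x l) (y k) (y l) (x (k + l)) (x (k - l)) hne
      (hxy.curve k (by omega)) (hxy.curve l hl) (hxy.addx k l hl hlk) (hxy.subx k l hl hlk)
    have hF := hC₂ ![x k * x l, x k + x l, 1]
    rw [KPL_map] at hF
    have hv : ![(x k * x l) ^ 2 - 2 * A * (x k * x l) * 1 - 4 * B * (x k + x l) * 1 +
          A ^ 2 * 1 ^ 2, 2 * (x k + x l) * (x k * x l) + 2 * A * (x k + x l) * 1 + 4 * B * 1 ^ 2,
          (x k + x l) ^ 2 - 4 * (x k * x l) * 1] =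
        (x k - x l) ^ 2 • ![x (k + l) * x (k - l), x (k + l) + x (k - l), 1] := by
      funext i
      fin_cases i
      · simp only [Matrix.smul_cons, smul_eq_mul, Matrix.cons_val_zero, Fin.zero_eta]
        rw [e2]
        ring
      · simp only [Matrix.smul_cons, smul_eq_mul, Matrix.cons_val_one, Matrix.cons_val_zero,
          Fin.mk_one]
        rw [e1]
        ring
      · simp
        ring
    rw [hv, logHeight_smul_eq_logHeight _ (pow_ne_zero 2 (sub_ne_zero.mpr hne))] at hF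
    have g1 := KPL_lh (x k) (x l) C₁ hC₁
    have g2 := KPL_lh (x (k + l)) (x (k - l)) C₁ hC₁
    rw [abs_le] at hF g1 g2 ⊢
    constructor <;> linarith [hF.1, hF.2, g1.1, g1.2, g2.1, g2.2]
  · intro k hk
    obtain ⟨hcu, e1⟩ := KPL_dbl A B (x k) (y k) (x (2 * k)) (hxy.yne k hk) (hxy.curve k hk)
      (hxy.dblx k hk)
    have hF := hC₂ ![x k * x k, x k + x k, 1]
    rw [KPL_map] at hF
    have hv : ![(x k * x k) ^ 2 - 2 * A * (x k * x k) * 1 - 4 * B * (x k + x k) * 1 +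
          A ^ 2 * 1 ^ 2, 2 * (x k + x k) * (x k * x k) + 2 * A * (x k + x k) * 1 + 4 * B * 1 ^ 2,
          (x k + x k) ^ 2 - 4 * (x k * x k) * 1] =
        ![th A B (x k), 4 * cu A B (x k), 0] := by
      funext i
      fin_cases i
      · simp only [Matrix.cons_val_zero, Fin.zero_eta]
        unfold th
        ring
      · simp only [Matrix.cons_val_one, Matrix.cons_val_zero, Fin.mk_one]
        unfold cu
        ring
      · simp
        ring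
    rw [hv, logHeight_cons_cons_cons_zero, ← logHeight₁_div_eq_logHeight, ← e1] at hF
    have g1 := KPL_lh (x k) (x k) C₁ hC₁
    have hC0 : 0 ≤ C₁ := (abs_nonneg _).trans g1
    rw [abs_le] at hF g1 ⊢
    constructor <;> linarith [hF.1, hF.2, g1.1, g1.2]

end Pool.Agent.Helper42.LK
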