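import Pool.Agent.Helper42.LK.Defs

open NumberField Height Filter Topology

namespace Pool.Agent.Helper42.LK

open Pool.Agent.Helper42.LS

theorem KSM_fin {α : Type} (T : Set α) (hT : T.Finite) (f : α → ℝ) (hf : ∀ a ∈ T, 0 < f a) :
    ∃ c : ℝ, 0 < c ∧ ∀ a ∈ T, c ≤ f a := by
  rcases T.eq_empty_or_nonempty with h | h
  · refine ⟨1, one_pos, fun a ha => ?_⟩
    rw [h] at ha
    exact absurd ha (Set.notMem_empty a)
  · obtain ⟨b, hb, hmin⟩ := hT.toFinset.exists_min_image f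
      (by
        obtain ⟨a, ha⟩ := h
        exact ⟨a, hT.mem_toFinset.mpr ha⟩)
    exact ⟨f b, hf b (hT.mem_toFinset.mp hb), fun a ha => hmin a (hT.mem_toFinset.mpr ha)⟩

theorem KSM_height {K : Type} [Field K] [NumberField K] (A : K) (M : ℝ)
    (hv : ∀ v : FinitePlace K, v A ≤ 1) (hw : ∀ w : InfinitePlace K, Real.log (w A) ≤ M)
    (hM : 0 ≤ M) : logHeight₁ A ≤ Module.finrank ℚ K * M := by
  rw [NumberField.logHeight₁_eq]
  have h1 : ∑ᶠ v : FinitePlace K, Real.posLog (v A) = 0 := by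
    rw [← finsum_zero (α := FinitePlace K)]
    apply finsum_congr
    intro v
    rw [Real.posLog_eq_zero_iff, abs_of_nonneg (by rw [FinitePlace.coe_apply]; exact v.val.nonneg A)]
    exact hv v
  rw [h1, add_zero]
  have h2 : ∑ w : InfinitePlace K, (w.mult : ℝ) * Real.posLog (w A) ≤
      ∑ w : InfinitePlace K, (w.mult : ℝ) * M := by
    apply Finset.sum_le_sum
    intro w _
    apply mul_le_mul_of_nonneg_left _ (Nat.cast_nonneg _)
    rw [Real.posLog_apply]
    exact max_le hM (hw w)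
  have hd : ∑ w : InfinitePlace K, (w.mult : ℝ) = Module.finrank ℚ K := by
    have h := InfinitePlace.sum_mult_eq (K := K)
    exact_mod_cast h
  rw [← Finset.sum_mul, hd] at h2
  exact h2

theorem KSM_can {K : Type} [Field K] [NumberField K] (x : ℕ → K) (u : K) (hu : u ≠ 0) (e : ℝ)
    (h : IsCanK x e) : IsCanK (fun k => u ^ 2 * x k) e := by
  intro k hk
  have h1 := h k hk
  set c : ℝ := logHeight₁ (u ^ 2) with hc
  have hu2 : u ^ 2 ≠ 0 := pow_ne_zero 2 hu
  have hb : ∀ y : K, |logHeight₁ (u ^ 2 * y) - logHeight₁ y| ≤ c := by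
    intro y
    have h2 := logHeight₁_mul_le (u ^ 2) y
    have h3 := logHeight₁_mul_le (u ^ 2)⁻¹ (u ^ 2 * y)
    rw [inv_mul_cancel_left₀ hu2, logHeight₁_inv] at h3
    rw [abs_le]
    constructor <;> linarith
  have h4 : Tendsto (fun n : ℕ => (logHeight₁ (u ^ 2 * x (k * 2 ^ n)) -
      logHeight₁ (x (k * 2 ^ n))) / (4 : ℝ) ^ n) atTop (𝓝 0) := by
    have h5 : Tendsto (fun n : ℕ => c * (1 / 4 : ℝ) ^ n) atTop (𝓝 0) := by
      have h0 : Tendsto (fun n : ℕ => (1 / 4 : ℝ) ^ n) atTop (𝓝 0) :=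
        tendsto_pow_atTop_nhds_zero_of_lt_one (by norm_num) (by norm_num)
      have h6 := h0.const_mul c
      rwa [mul_zero] at h6
    apply squeeze_zero_norm _ h5
    intro n
    rw [Real.norm_eq_abs, abs_div, abs_of_pos (show (0 : ℝ) < 4 ^ n by positivity)]
    rw [one_div, inv_pow, ← div_eq_mul_inv]
    exact div_le_div_of_nonneg_right (hb _) (by positivity)
  have h5 := h1.add h4
  rw [add_zero] at h5
  refine h5.congr fun n => ?_
  show logHeight₁ (x (k * 2 ^ n)) / 4 ^ n +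
    (logHeight₁ (u ^ 2 * x (k * 2 ^ n)) - logHeight₁ (x (k * 2 ^ n))) / 4 ^ n =
    logHeight₁ (u ^ 2 * x (k * 2 ^ n)) / 4 ^ n
  ring

theorem st_KSM (hKRM : ST_KRM) (hKNC : ST_KNC) (hKSC : ST_KSC) : ST_KSM := by
  intro K _ _ H₀
  obtain ⟨C, hC⟩ := hKRM K
  set M : ℝ := max 0 ((H₀ + C) / (12 * Module.finrank ℚ K)) with hM
  have hM0 : 0 ≤ M := le_max_left _ _
  have hd : 0 < (Module.finrank ℚ K : ℝ) := by
    exact_mod_cast Module.finrank_pos
  -- the finite set of reduced equations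
  set T : Set (K × K) := {p | logHeight₁ p.1 ≤ Module.finrank ℚ K * (4 * M) ∧
    logHeight₁ p.2 ≤ Module.finrank ℚ K * (6 * M)} with hT
  have hTfin : T.Finite := by
    refine ((NumberField.finite_setOfPred_logHeight₁_le K (Module.finrank ℚ K * (4 * M))).prod
      (NumberField.finite_setOfPred_logHeight₁_le K (Module.finrank ℚ K * (6 * M)))).subset ?_
    intro p hp
    exact ⟨hp.1, hp.2⟩
  have hex : ∀ p : K × K, ∃ c : ℝ, 0 < c ∧ (dsc p.1 p.2 ≠ 0 →
      ∀ (x y : ℕ → K) (e : ℝ), GSeq (0 : K) p.1 p.2 x y → IsCanK x e → c ≤ e) := by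
    intro p
    by_cases hp : dsc p.1 p.2 = 0
    · exact ⟨1, one_pos, fun h => absurd hp h⟩
    · obtain ⟨c, hc, hc'⟩ := hKNC K p.1 p.2 hp
      exact ⟨c, hc, fun _ => hc'⟩
  choose f hf0 hf using hex
  obtain ⟨c, hc, hcT⟩ := KSM_fin T hTfin f (fun p _ => hf0 p)
  refine ⟨c, hc, fun A B hAB hH x y e hxy he => ?_⟩
  obtain ⟨u, l, hu, hl, hfin, hinf, hlog⟩ := hC A B hAB
  have hlM : Real.log l ≤ M := by
    have h1 : Real.log l ≤ (H₀ + C) / (12 * Module.finrank ℚ K) := by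
      rw [le_div_iff₀ (by positivity)]
      nlinarith
    exact h1.trans (le_max_right _ _)
  have hlogw : ∀ (w : InfinitePlace K) (z : K) (n : ℕ), w z ≤ l ^ n →
      Real.log (w z) ≤ n * M := by
    intro w z n h
    by_cases hz : w z = 0
    · rw [hz, Real.log_zero]
      positivity
    · have h1 : Real.log (w z) ≤ Real.log (l ^ n) :=
        Real.log_le_log (lt_of_le_of_ne (apply_nonneg w z) (Ne.symm hz)) h
      rw [Real.log_pow] at h1
      exact h1.trans (mul_le_mul_of_nonneg_left hlM (Nat.cast_nonneg n))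
  have hA : logHeight₁ (u ^ 4 * A) ≤ Module.finrank ℚ K * (4 * M) := by
    apply KSM_height _ _ (fun v => (hfin v).1) _ (by positivity)
    intro w
    have h1 := hlogw w (u ^ 4 * A) 4 (hinf w).1
    push_cast at h1
    exact h1
  have hB : logHeight₁ (u ^ 6 * B) ≤ Module.finrank ℚ K * (6 * M) := by
    apply KSM_height _ _ (fun v => (hfin v).2) _ (by positivity)
    intro w
    have h1 := hlogw w (u ^ 6 * B) 6 (hinf w).2
    push_cast at h1
    exact h1
  have hdsc : dsc (u ^ 4 * A) (u ^ 6 * B) ≠ 0 := by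
    have e1 : dsc (u ^ 4 * A) (u ^ 6 * B) = u ^ 12 * dsc A B := by
      unfold dsc
      ring
    rw [e1]
    exact mul_ne_zero (pow_ne_zero _ hu) hAB
  have h1 := hcT (u ^ 4 * A, u ^ 6 * B) ⟨hA, hB⟩
  have h2 := hf (u ^ 4 * A, u ^ 6 * B) hdsc (fun k => u ^ 2 * x k) (fun k => u ^ 3 * y k) e
    (hKSC K A B u x y hu hxy) (KSM_can x u hu e he)
  exact h1.trans h2

end Pool.Agent.Helper42.LK
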