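import Pool.Agent.Helper42.LK.Defs

namespace Pool.Agent.Helper42.LK

open Pool.Agent.Helper42.LS

theorem CS_fk_nonneg (κ s : ℂ) : 0 ≤ fk κ s := by
  unfold fk
  exact div_nonneg (le_max_left _ _) (by norm_num)

theorem CS_fk_le (κ s : ℂ) (hκ : κ ≠ 0) (hκ1 : ‖κ‖ ≤ 1 / 100) :
    fk κ s ≤ (-Real.log ‖κ‖) / 2 := by
  have h0 : 0 < ‖κ‖ := norm_pos_iff.mpr hκ
  have h1 : Real.log ‖κ‖ ≤ Real.log (max ‖s‖ ‖κ‖) := Real.log_le_log h0 (le_max_right _ _)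
  have h2 : Real.log ‖κ‖ ≤ 0 := Real.log_nonpos h0.le (by linarith)
  unfold fk
  have h3 : max 0 (-Real.log (max ‖s‖ ‖κ‖)) ≤ -Real.log ‖κ‖ := max_le (by linarith) (by linarith)
  linarith

theorem CS_W_pos (κ : ℂ) (hκ : κ ≠ 0) (hκ1 : ‖κ‖ ≤ 1 / 100) : 0 < -Real.log ‖κ‖ := by
  have h0 : 0 < ‖κ‖ := norm_pos_iff.mpr hκ
  have h2 : Real.log ‖κ‖ < 0 := Real.log_neg h0 (by linarith)
  linarith

/-- Lipschitz property of `t (W - t) / W` -/
theorem CS_lip (W s t : ℝ) (hW : 0 < W) (hs0 : 0 ≤ s) (hs : s ≤ W) (ht0 : 0 ≤ t) (ht : t ≤ W) :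
    t * (W - t) / W ≤ s * (W - s) / W + |s - t| := by
  have h1 : t * (W - t) - s * (W - s) = (t - s) * (W - t - s) := by ring
  have h2 : (t - s) * (W - t - s) ≤ |s - t| * W := by
    have h3 : |(t - s) * (W - t - s)| ≤ |s - t| * W := by
      rw [abs_mul, abs_sub_comm t s]
      apply mul_le_mul_of_nonneg_left _ (abs_nonneg _)
      rw [abs_le]
      constructor <;> linarith
    exact (le_abs_self _).trans h3
  have h4 : t * (W - t) / W - s * (W - s) / W = (t - s) * (W - t - s) / W := by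
    rw [← sub_div, h1]
  have h5 : (t - s) * (W - t - s) / W ≤ |s - t| := by
    rw [div_le_iff₀ hW]
    exact h2
  linarith

theorem CS_fold (W f : ℝ) (hW : 0 < W) :
    min (2 * f) (W - 2 * f) * (W - min (2 * f) (W - 2 * f)) / W = 2 * f - 4 * f ^ 2 / W := by
  rcases min_choice (2 * f) (W - 2 * f) with h | h
  · rw [h]
    field_simp
    ring
  · rw [h]
    field_simp
    ring

theorem CS_B2 (t : ℝ) : B2 t - 1 / 6 = -(nd t * (1 - nd t)) := by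
  unfold B2 nd
  rcases min_choice (Int.fract t) (1 - Int.fract t) with h | h
  · rw [h]
    ring
  · rw [h]
    ring

/-- the function on the integers -/
noncomputable def CS_F (κ : ℂ) (S : ℕ → ℂ) (n : ℕ) : ℝ := if n = 0 then 0 else fk κ (S n)

theorem CS_F_zero (κ : ℂ) (S : ℕ → ℂ) : CS_F κ S 0 = 0 := if_pos rfl

theorem CS_F_pos (κ : ℂ) (S : ℕ → ℂ) (n : ℕ) (hn : 1 ≤ n) : CS_F κ S n = fk κ (S n) :=
  if_neg (by omega)

theorem CS_F_bd (κ : ℂ) (S : ℕ → ℂ) (hκ : κ ≠ 0) (hκ1 : ‖κ‖ ≤ 1 / 100) (n : ℕ) :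
    0 ≤ CS_F κ S n ∧ CS_F κ S n ≤ (-Real.log ‖κ‖) / 2 := by
  unfold CS_F
  split_ifs with h
  · exact ⟨le_refl _, (half_pos (CS_W_pos κ hκ hκ1)).le⟩
  · exact ⟨CS_fk_nonneg _ _, CS_fk_le _ _ hκ hκ1⟩

/-- law for natural numbers `n ≤ m` -/
theorem CS_law_nat (κ : ℂ) (hκ : κ ≠ 0) (hκ1 : ‖κ‖ ≤ 1 / 100) (S : ℕ → ℂ) (C : ℝ) (hC : 0 ≤ C)
    (hA : ∀ k l : ℕ, 1 ≤ l → l < k →
      (|fk κ (S (k + l)) - abs (fk κ (S k) - fk κ (S l))| ≤ C ∧
        |fk κ (S (k - l)) - min (fk κ (S k) + fk κ (S l))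
          (-Real.log ‖κ‖ - (fk κ (S k) + fk κ (S l)))| ≤ C) ∨
      (|fk κ (S (k - l)) - abs (fk κ (S k) - fk κ (S l))| ≤ C ∧
        |fk κ (S (k + l)) - min (fk κ (S k) + fk κ (S l))
          (-Real.log ‖κ‖ - (fk κ (S k) + fk κ (S l)))| ≤ C))
    (hD : ∀ k : ℕ, 1 ≤ k →
      |fk κ (S (2 * k)) - min (2 * fk κ (S k)) (-Real.log ‖κ‖ - 2 * fk κ (S k))| ≤ C)
    (m n : ℕ) (hnm : n ≤ m) :
    (|CS_F κ S (m - n) - abs (CS_F κ S m - CS_F κ S n)| ≤ C ∧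
      |CS_F κ S (m + n) - min (CS_F κ S m + CS_F κ S n)
        (-Real.log ‖κ‖ - (CS_F κ S m + CS_F κ S n))| ≤ C) ∨
    (|CS_F κ S (m + n) - abs (CS_F κ S m - CS_F κ S n)| ≤ C ∧
      |CS_F κ S (m - n) - min (CS_F κ S m + CS_F κ S n)
        (-Real.log ‖κ‖ - (CS_F κ S m + CS_F κ S n))| ≤ C) := by
  have hm := CS_F_bd κ S hκ hκ1 m
  rcases Nat.eq_zero_or_pos n with hn | hn
  · left
    subst hn
    rw [CS_F_zero, Nat.sub_zero, Nat.add_zero, sub_zero, add_zero, abs_of_nonneg hm.1, sub_self,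
      abs_zero, min_eq_left (by linarith), sub_self, abs_zero]
    exact ⟨hC, hC⟩
  · rcases Nat.eq_or_lt_of_le hnm with h | h
    · left
      subst h
      rw [Nat.sub_self, sub_self, CS_F_zero, abs_zero, sub_zero, abs_zero]
      refine ⟨hC, ?_⟩
      have h1 := hD n hn
      have e : n + n = 2 * n := by ring
      rw [e, CS_F_pos κ S (2 * n) (by omega), CS_F_pos κ S n hn, ← two_mul]
      exact h1
    · have h1 := hA m n hn h
      rw [CS_F_pos κ S (m - n) (by omega), CS_F_pos κ S (m + n) (by omega),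
        CS_F_pos κ S m (by omega), CS_F_pos κ S n hn]
      rcases h1 with ⟨h2, h3⟩ | ⟨h2, h3⟩
      · exact Or.inr ⟨h2, h3⟩
      · exact Or.inl ⟨h2, h3⟩

theorem CS_law_int (W C : ℝ) (F : ℕ → ℝ)
    (hF : ∀ m n : ℕ, n ≤ m →
      (|F (m - n) - abs (F m - F n)| ≤ C ∧ |F (m + n) - min (F m + F n) (W - (F m + F n))| ≤ C) ∨
      (|F (m + n) - abs (F m - F n)| ≤ C ∧ |F (m - n) - min (F m + F n) (W - (F m + F n))| ≤ C))
    (a b : ℤ) :
    (|F (a - b).natAbs - abs (F a.natAbs - F b.natAbs)| ≤ C ∧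
      |F (a + b).natAbs - min (F a.natAbs + F b.natAbs) (W - (F a.natAbs + F b.natAbs))| ≤ C) ∨
    (|F (a + b).natAbs - abs (F a.natAbs - F b.natAbs)| ≤ C ∧
      |F (a - b).natAbs - min (F a.natAbs + F b.natAbs) (W - (F a.natAbs + F b.natAbs))| ≤ C) := by
  rcases le_total b.natAbs a.natAbs with h | h
  · have h1 := hF a.natAbs b.natAbs h
    have h2 : ((a - b).natAbs = a.natAbs - b.natAbs ∧ (a + b).natAbs = a.natAbs + b.natAbs) ∨
        ((a + b).natAbs = a.natAbs - b.natAbs ∧ (a - b).natAbs = a.natAbs + b.natAbs) := by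
      omega
    rcases h2 with ⟨h3, h4⟩ | ⟨h3, h4⟩
    · rw [h3, h4]
      exact h1
    · rw [h3, h4]
      exact h1.symm
  · have h1 := hF b.natAbs a.natAbs h
    rw [abs_sub_comm (F b.natAbs), add_comm (F b.natAbs)] at h1
    have h2 : ((a - b).natAbs = b.natAbs - a.natAbs ∧ (a + b).natAbs = b.natAbs + a.natAbs) ∨
        ((a + b).natAbs = b.natAbs - a.natAbs ∧ (a - b).natAbs = b.natAbs + a.natAbs) := by
      omega
    rcases h2 with ⟨h3, h4⟩ | ⟨h3, h4⟩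
    · rw [h3, h4]
      exact h1
    · rw [h3, h4]
      exact h1.symm

theorem st_CS (hCID : ST_CID) (hCFA : ST_CFA) (hCFD : ST_CFD) (hCP : ST_CP) (hFST : ST_FST) :
    ST_CS := by
  obtain ⟨CA, hCA⟩ := hCFA
  obtain ⟨CD, hCD⟩ := hCFD
  obtain ⟨CP, hCP⟩ := hCP
  obtain ⟨K, hK⟩ := hFST
  set C : ℝ := max (max CA CD) 0 with hCdef
  have hC0 : 0 ≤ C := le_max_right _ _
  have hCAC : CA ≤ C := (le_max_left _ _).trans (le_max_left _ _)
  have hCDC : CD ≤ C := (le_max_right _ _).trans (le_max_left _ _)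
  refine ⟨|CP| + C + |K| * C, ?_⟩
  intro κ hκ hκ1 Z Y hZY
  obtain ⟨h1, h2⟩ := hCID κ hκ hκ1 Z Y hZY (fun k => (Y k / Z k) ^ 2) (fun k => rfl)
  set S : ℕ → ℂ := fun k => (Y k / Z k) ^ 2 with hS
  set W : ℝ := -Real.log ‖κ‖ with hWdef
  have hW : 0 < W := CS_W_pos κ hκ hκ1
  have hA : ∀ k l : ℕ, 1 ≤ l → l < k →
      (|fk κ (S (k + l)) - abs (fk κ (S k) - fk κ (S l))| ≤ C ∧
        |fk κ (S (k - l)) - min (fk κ (S k) + fk κ (S l))
          (-Real.log ‖κ‖ - (fk κ (S k) + fk κ (S l)))| ≤ C) ∨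
      (|fk κ (S (k - l)) - abs (fk κ (S k) - fk κ (S l))| ≤ C ∧
        |fk κ (S (k + l)) - min (fk κ (S k) + fk κ (S l))
          (-Real.log ‖κ‖ - (fk κ (S k) + fk κ (S l)))| ≤ C) := by
    intro k l hl hlk
    obtain ⟨g1, g2, g3⟩ := h2 k l hl hlk
    rcases hCA κ (S k) (S l) (S (k + l)) (S (k - l)) hκ hκ1 g1 g2 g3 with ⟨g4, g5⟩ | ⟨g4, g5⟩
    · exact Or.inl ⟨g4.trans hCAC, g5.trans hCAC⟩
    · exact Or.inr ⟨g4.trans hCAC, g5.trans hCAC⟩
  have hD : ∀ k : ℕ, 1 ≤ k →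
      |fk κ (S (2 * k)) - min (2 * fk κ (S k)) (-Real.log ‖κ‖ - 2 * fk κ (S k))| ≤ C := by
    intro k hk
    obtain ⟨_, g1, g2, g3, _, g5⟩ := h1 k hk
    exact (hCD κ (S k) (S (2 * k)) hκ hκ1 g1 g2 g3 g5).trans hCDC
  have hbd := CS_F_bd κ S hκ hκ1
  obtain ⟨τ, hτ⟩ := hK W C hW hC0 (fun a : ℤ => CS_F κ S a.natAbs) (fun k => hbd k.natAbs)
    (by
      show CS_F κ S (0 : ℤ).natAbs = 0
      rw [Int.natAbs_zero]
      exact CS_F_zero κ S)
    (fun k => by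
      show CS_F κ S (-k).natAbs = CS_F κ S k.natAbs
      rw [Int.natAbs_neg])
    (fun a b => CS_law_int W C (CS_F κ S)
      (fun m n hnm => CS_law_nat κ hκ hκ1 S C hC0 hA hD m n hnm) a b)
  have hτ' : ∀ k : ℕ, 1 ≤ k → |fk κ (S k) - W * nd (k * τ)| ≤ |K| * C := by
    intro k hk
    have h3 := hτ k hk
    have h4 : |CS_F κ S ((k : ℤ)).natAbs - W * nd (k * τ)| ≤ K * C := h3
    rw [Int.natAbs_natCast, CS_F_pos κ S k hk] at h4
    exact h4.trans (mul_le_mul_of_nonneg_right (le_abs_self K) hC0)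
  have hKC : 0 ≤ |K| * C := mul_nonneg (abs_nonneg K) hC0
  have hf0 : ∀ k : ℕ, 0 ≤ fk κ (S k) := fun k => CS_fk_nonneg _ _
  have hf1 : ∀ k : ℕ, fk κ (S k) ≤ W / 2 := fun k => CS_fk_le _ _ hκ hκ1
  refine ⟨fun k => Real.log (max ‖Z k‖ 1) - fk κ (S k) * (W - fk κ (S k)) / W, τ, ?_, ?_, ?_⟩
  · intro k hk
    obtain ⟨gz, _, _, _, g4, _⟩ := h1 k hk
    have hYne : Y k ≠ 0 := hZY.yne k hk
    have hcurve : Y k ^ 2 = Z k ^ 3 - (2 + κ) * Z k ^ 2 + Z k := by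
      rw [hZY.curve k hk]
      ring
    have hP := hCP κ (Z k) (Y k) hκ hκ1 gz hYne hcurve
    have hP' : 4 * Real.log (max ‖Z k‖ 1) - 2 * fk κ (S k) - CP ≤
        Real.log (max (‖Z k ^ 2 - 1‖ ^ 2) ‖4 * Y k ^ 2‖) := hP
    have hY4 : 0 < ‖4 * Y k ^ 2‖ := by
      apply norm_pos_iff.mpr
      exact mul_ne_zero (by norm_num) (pow_ne_zero 2 hYne)
    have hlog : Real.log (max ‖Z (2 * k)‖ 1) + Real.log ‖4 * Y k ^ 2‖ =
        Real.log (max (‖Z k ^ 2 - 1‖ ^ 2) ‖4 * Y k ^ 2‖) := by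
      rw [← Real.log_mul (lt_of_lt_of_le one_pos (le_max_right _ _)).ne' hY4.ne',
        max_mul_of_nonneg _ _ hY4.le, one_mul, ← norm_mul, g4, norm_pow]
    have hD' := hD k hk
    set f := fk κ (S k) with hfdef
    set f2 := fk κ (S (2 * k)) with hf2def
    have hf0k : 0 ≤ f := hf0 k
    have hf1k : f ≤ W / 2 := hf1 k
    have hm0 : 0 ≤ min (2 * f) (W - 2 * f) := le_min (by linarith) (by linarith)
    have hm1 : min (2 * f) (W - 2 * f) ≤ W := (min_le_right _ _).trans (by linarith)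
    have hl := CS_lip W (min (2 * f) (W - 2 * f)) f2 hW hm0 hm1 (hf0 (2 * k))
      ((hf1 (2 * k)).trans (by linarith))
    rw [CS_fold W f hW, abs_sub_comm] at hl
    have hD'' : |f2 - min (2 * f) (W - 2 * f)| ≤ C := hD'
    have e1 : f * (W - f) / W = f - f ^ 2 / W := by
      field_simp
    have e2 : 4 * f ^ 2 / W = 4 * (f ^ 2 / W) := by ring
    have hCP' : CP ≤ |CP| := le_abs_self CP
    show 4 * (Real.log (max ‖Z k‖ 1) - f * (W - f) / W) - (|CP| + C + |K| * C) ≤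
      Real.log (max ‖Z (2 * k)‖ 1) - f2 * (W - f2) / W + Real.log ‖4 * Y k ^ 2‖
    rw [e1]
    rw [e2] at hl
    linarith
  · intro k hk
    have h3 : 0 ≤ fk κ (S k) * (W - fk κ (S k)) / W := by
      apply div_nonneg _ hW.le
      apply mul_nonneg (hf0 k)
      linarith [hf1 k]
    show Real.log (max ‖Z k‖ 1) - fk κ (S k) * (W - fk κ (S k)) / W ≤ Real.log (max ‖Z k‖ 1)
    linarith
  · intro k hk
    have h3 := hτ' k hk
    have hn0 : 0 ≤ nd (k * τ) := by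
      unfold nd
      refine le_min (Int.fract_nonneg _) ?_
      linarith [Int.fract_lt_one ((k : ℝ) * τ)]
    have hn1 : nd (k * τ) ≤ 1 := by
      unfold nd
      exact (min_le_left _ _).trans (Int.fract_lt_one _).le
    have hg0 : 0 ≤ W * nd (k * τ) := mul_nonneg hW.le hn0
    have hg1 : W * nd (k * τ) ≤ W := by
      have := mul_le_mul_of_nonneg_left hn1 hW.le
      linarith
    have hl := CS_lip W (W * nd (k * τ)) (fk κ (S k)) hW hg0 hg1 (hf0 k)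
      ((hf1 k).trans (by linarith))
    rw [abs_sub_comm] at hl
    have e1 : W * nd (k * τ) * (W - W * nd (k * τ)) / W = W * (nd (k * τ) * (1 - nd (k * τ))) := by
      field_simp
    rw [e1] at hl
    have hlog : 0 ≤ Real.log (max ‖Z k‖ 1) := Real.log_nonneg (le_max_right _ _)
    show W * (B2 (k * τ) - 1 / 6) - (|CP| + C + |K| * C) ≤
      Real.log (max ‖Z k‖ 1) - fk κ (S k) * (W - fk κ (S k)) / W
    rw [CS_B2]
    have hCP' : 0 ≤ |CP| := abs_nonneg CP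
    have e2 : W * -(nd (k * τ) * (1 - nd (k * τ))) = -(W * (nd (k * τ) * (1 - nd (k * τ)))) := by
      ring
    rw [e2]
    linarith

end Pool.Agent.Helper42.LK
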