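import Pool.Agent.Helper42.LK.Defs

namespace Pool.Agent.Helper42.LK

open Pool.Agent.Helper42.LS

/-- distance to the multiples of `W` -/
noncomputable def FS1_N (W x : ℝ) : ℝ := |x - (round (x / W) : ℝ) * W|

theorem FS1_N_le (W : ℝ) (hW : 0 < W) (x : ℝ) (m : ℤ) : FS1_N W x ≤ |x - (m : ℝ) * W| := by
  have h := round_le (x / W) m
  have e1 : x - (round (x / W) : ℝ) * W = (x / W - (round (x / W) : ℝ)) * W := by
    field_simp
  have e2 : x - (m : ℝ) * W = (x / W - (m : ℝ)) * W := by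
    field_simp
  unfold FS1_N
  rw [e1, e2, abs_mul, abs_mul]
  exact mul_le_mul_of_nonneg_right h (abs_nonneg W)

theorem FS1_N_ex (W x : ℝ) : ∃ m : ℤ, FS1_N W x = |x - (m : ℝ) * W| :=
  ⟨round (x / W), rfl⟩

theorem FS1_N_nonneg (W x : ℝ) : 0 ≤ FS1_N W x := abs_nonneg _

theorem FS1_N_add (W : ℝ) (hW : 0 < W) (x y : ℝ) :
    FS1_N W (x + y) ≤ FS1_N W x + FS1_N W y := by
  obtain ⟨m, hm⟩ := FS1_N_ex W x
  obtain ⟨n, hn⟩ := FS1_N_ex W y
  have h := FS1_N_le W hW (x + y) (m + n)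
  have e : x + y - ((m + n : ℤ) : ℝ) * W = (x - (m : ℝ) * W) + (y - (n : ℝ) * W) := by
    push_cast
    ring
  rw [e] at h
  rw [hm, hn]
  exact h.trans (abs_add_le _ _)

theorem FS1_N_neg_le (W : ℝ) (hW : 0 < W) (x : ℝ) : FS1_N W (-x) ≤ FS1_N W x := by
  obtain ⟨m, hm⟩ := FS1_N_ex W x
  have h := FS1_N_le W hW (-x) (-m)
  have e : -x - ((-m : ℤ) : ℝ) * W = -(x - (m : ℝ) * W) := by
    push_cast
    ring
  rw [e, abs_neg] at h
  rw [hm]
  exact h

theorem FS1_N_neg (W : ℝ) (hW : 0 < W) (x : ℝ) : FS1_N W (-x) = FS1_N W x := by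
  refine le_antisymm (FS1_N_neg_le W hW x) ?_
  have h := FS1_N_neg_le W hW (-x)
  rwa [neg_neg] at h

theorem FS1_N_per_le (W : ℝ) (hW : 0 < W) (x : ℝ) (k : ℤ) :
    FS1_N W (x + (k : ℝ) * W) ≤ FS1_N W x := by
  obtain ⟨m, hm⟩ := FS1_N_ex W x
  have h := FS1_N_le W hW (x + (k : ℝ) * W) (m + k)
  have e : x + (k : ℝ) * W - ((m + k : ℤ) : ℝ) * W = x - (m : ℝ) * W := by
    push_cast
    ring
  rw [e] at h
  rw [hm]
  exact h

theorem FS1_N_per (W : ℝ) (hW : 0 < W) (x : ℝ) (k : ℤ) :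
    FS1_N W (x + (k : ℝ) * W) = FS1_N W x := by
  refine le_antisymm (FS1_N_per_le W hW x k) ?_
  have h := FS1_N_per_le W hW (x + (k : ℝ) * W) (-k)
  have e : x + (k : ℝ) * W + ((-k : ℤ) : ℝ) * W = x := by
    push_cast
    ring
  rwa [e] at h

theorem FS1_N_small (W : ℝ) (hW : 0 < W) (x : ℝ) (hx : |x| ≤ W / 2) : FS1_N W x = |x| := by
  refine le_antisymm ?_ ?_
  · have h := FS1_N_le W hW x 0
    simpa using h
  · obtain ⟨m, hm⟩ := FS1_N_ex W x
    rw [hm]
    by_cases h0 : m = 0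
    · subst h0
      simp
    · have h1 : (1 : ℝ) ≤ |(m : ℝ)| := by
        have h2 : (1 : ℤ) ≤ |m| := Int.one_le_abs h0
        exact_mod_cast h2
      have h3 : |(m : ℝ) * W| - |x| ≤ |x - (m : ℝ) * W| := by
        have h4 := abs_sub_abs_le_abs_sub ((m : ℝ) * W) x
        rwa [abs_sub_comm] at h4
      rw [abs_mul, abs_of_pos hW] at h3
      have h5 : W ≤ |(m : ℝ)| * W := le_mul_of_one_le_left hW.le h1
      linarith

theorem FS1_N_fold (W : ℝ) (hW : 0 < W) (x : ℝ) (h0 : 0 ≤ x) (h1 : x ≤ W) :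
    FS1_N W x = min x (W - x) := by
  by_cases h : x ≤ W / 2
  · rw [FS1_N_small W hW x (by rw [abs_of_nonneg h0]; exact h), abs_of_nonneg h0,
      min_eq_left (by linarith)]
  · have h2 : W / 2 < x := not_le.mp h
    have h3 := FS1_N_per W hW x (-1)
    have e : x + ((-1 : ℤ) : ℝ) * W = -(W - x) := by
      push_cast
      ring
    rw [e, FS1_N_neg W hW] at h3
    rw [← h3, FS1_N_small W hW (W - x) (by rw [abs_of_nonneg (by linarith)]; linarith),
      abs_of_nonneg (by linarith), min_eq_right (by linarith)]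

/-- folding -/
theorem FS1_N_or (W : ℝ) (hW : 0 < W) (x y : ℝ) :
    FS1_N W (x - y) ≤ |FS1_N W x - FS1_N W y| ∨ FS1_N W (x + y) ≤ |FS1_N W x - FS1_N W y| := by
  obtain ⟨m, hm⟩ := FS1_N_ex W x
  obtain ⟨n, hn⟩ := FS1_N_ex W y
  have h1 := FS1_N_le W hW (x - y) (m - n)
  have h2 := FS1_N_le W hW (x + y) (m + n)
  have e1 : x - y - ((m - n : ℤ) : ℝ) * W = (x - (m : ℝ) * W) - (y - (n : ℝ) * W) := by
    push_cast
    ring
  have e2 : x + y - ((m + n : ℤ) : ℝ) * W = (x - (m : ℝ) * W) + (y - (n : ℝ) * W) := by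
    push_cast
    ring
  rw [e1] at h1
  rw [e2] at h2
  rw [hm, hn]
  set p := x - (m : ℝ) * W
  set q := y - (n : ℝ) * W
  rcases le_total 0 p with hp | hp <;> rcases le_total 0 q with hq | hq
  · left
    rw [abs_of_nonneg hp, abs_of_nonneg hq]
    exact h1
  · right
    rw [abs_of_nonneg hp, abs_of_nonpos hq, sub_neg_eq_add]
    exact h2
  · right
    rw [abs_of_nonpos hp, abs_of_nonneg hq]
    have e : -p - q = -(p + q) := by ring
    rw [e, abs_neg]
    exact h2
  · left
    rw [abs_of_nonpos hp, abs_of_nonpos hq]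
    have e : -p - -q = -(p - q) := by ring
    rw [e, abs_neg]
    exact h1

theorem FS1_N_half (W : ℝ) (hW : 0 < W) (x : ℝ) :
    FS1_N W x ≤ FS1_N W (2 * x) / 2 ∨ FS1_N W (x - W / 2) ≤ FS1_N W (2 * x) / 2 := by
  obtain ⟨m, hm⟩ := FS1_N_ex W (2 * x)
  rw [hm]
  rcases Int.even_or_odd' m with ⟨j, hj | hj⟩
  · left
    have h := FS1_N_le W hW x j
    have e : 2 * x - (m : ℝ) * W = 2 * (x - (j : ℝ) * W) := by
      rw [hj]
      push_cast
      ring
    rw [e, abs_mul, abs_two]
    linarith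
  · right
    have h := FS1_N_le W hW (x - W / 2) j
    have e : 2 * x - (m : ℝ) * W = 2 * (x - W / 2 - (j : ℝ) * W) := by
      rw [hj]
      push_cast
      ring
    rw [e, abs_mul, abs_two]
    linarith

theorem FS1_N_sub (W : ℝ) (hW : 0 < W) (x y : ℝ) :
    |FS1_N W x - FS1_N W y| ≤ FS1_N W (x - y) := by
  rw [abs_le]
  constructor
  · have h := FS1_N_add W hW (-(x - y)) x
    have e : -(x - y) + x = y := by ring
    rw [e, FS1_N_neg W hW] at h
    linarith
  · have h := FS1_N_add W hW (x - y) y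
    have e : x - y + y = x := by ring
    rw [e] at h
    linarith

/-- determination of a point by two distances -/
theorem FS1_det (W : ℝ) (hW : 0 < W) (t t' γ e₁ e₂ : ℝ)
    (h1 : |FS1_N W t - FS1_N W t'| ≤ e₁) (h2 : |FS1_N W (t + γ) - FS1_N W (t' + γ)| ≤ e₂)
    (hγ : e₁ + e₂ < FS1_N W (2 * γ)) : FS1_N W (t - t') ≤ 2 * e₁ + e₂ := by
  have he1 : 0 ≤ e₁ := (abs_nonneg _).trans h1
  have he2 : 0 ≤ e₂ := (abs_nonneg _).trans h2
  rcases FS1_N_or W hW t t' with h | h
  · linarith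
  · have h3 : FS1_N W (t + t') ≤ e₁ := h.trans h1
    have h4 := FS1_N_sub W hW (t' + γ) (-t + γ)
    have e4 : t' + γ - (-t + γ) = t + t' := by ring
    rw [e4] at h4
    have h5 : |FS1_N W (t + γ) - FS1_N W (t - γ)| ≤ e₁ + e₂ := by
      have e5 : FS1_N W (-t + γ) = FS1_N W (t - γ) := by
        rw [← FS1_N_neg W hW (t - γ)]
        congr 1
        ring
      rw [e5] at h4
      have h6 := abs_sub_le (FS1_N W (t + γ)) (FS1_N W (t' + γ)) (FS1_N W (t - γ))
      linarith
    rcases FS1_N_or W hW (t + γ) (t - γ) with h6 | h6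
    · have e6 : t + γ - (t - γ) = 2 * γ := by ring
      rw [e6] at h6
      linarith
    · have e6 : t + γ + (t - γ) = 2 * t := by ring
      rw [e6] at h6
      have h7 := FS1_N_add W hW (2 * t) (-(t + t'))
      have e7 : 2 * t + -(t + t') = t - t' := by ring
      rw [e7, FS1_N_neg W hW] at h7
      linarith

/-- the law, with signs -/
theorem FS1_law (W C : ℝ) (hW : 0 < W) (f : ℤ → ℝ)
    (hf : ∀ k : ℤ, 0 ≤ f k ∧ f k ≤ W / 2)
    (law : ∀ a b : ℤ,
      (|f (a - b) - abs (f a - f b)| ≤ C ∧ |f (a + b) - min (f a + f b) (W - (f a + f b))| ≤ C) ∨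
      (|f (a + b) - abs (f a - f b)| ≤ C ∧ |f (a - b) - min (f a + f b) (W - (f a + f b))| ≤ C))
    (a b : ℤ) (s t : ℝ) (hs : s = f a ∨ s = -f a) (ht : t = f b ∨ t = -f b) :
    (|f (a - b) - FS1_N W (s - t)| ≤ C ∧ |f (a + b) - FS1_N W (s + t)| ≤ C) ∨
    (|f (a + b) - FS1_N W (s - t)| ≤ C ∧ |f (a - b) - FS1_N W (s + t)| ≤ C) := by
  have ha := hf a
  have hb := hf b
  have e1 : FS1_N W (f a - f b) = |f a - f b| := by
    apply FS1_N_small W hW
    rw [abs_le]
    constructor <;> linarith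
  have e2 : FS1_N W (f a + f b) = min (f a + f b) (W - (f a + f b)) :=
    FS1_N_fold W hW _ (by linarith) (by linarith)
  have L := law a b
  rw [← e1, ← e2] at L
  rcases hs with hs | hs <;> rcases ht with ht | ht
  · rw [hs, ht]
    exact L
  · rw [hs, ht, sub_neg_eq_add, ← sub_eq_add_neg]
    rcases L with ⟨L1, L2⟩ | ⟨L1, L2⟩
    · exact Or.inr ⟨L2, L1⟩
    · exact Or.inl ⟨L2, L1⟩
  · have e3 : FS1_N W (-f a - f b) = FS1_N W (f a + f b) := by
      rw [← FS1_N_neg W hW (f a + f b)]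
      congr 1
      ring
    have e4 : FS1_N W (-f a + f b) = FS1_N W (f a - f b) := by
      rw [← FS1_N_neg W hW (f a - f b)]
      congr 1
      ring
    rw [hs, ht, e3, e4]
    rcases L with ⟨L1, L2⟩ | ⟨L1, L2⟩
    · exact Or.inr ⟨L2, L1⟩
    · exact Or.inl ⟨L2, L1⟩
  · have e3 : FS1_N W (-f a - -f b) = FS1_N W (f a - f b) := by
      rw [← FS1_N_neg W hW (f a - f b)]
      congr 1
      ring
    have e4 : FS1_N W (-f a + -f b) = FS1_N W (f a + f b) := by
      rw [← FS1_N_neg W hW (f a + f b)]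
      congr 1
      ring
    rw [hs, ht, e3, e4]
    exact L

/-- one comparison step: the law at a shifted pair -/
theorem FS1_shift (W C : ℝ) (hW : 0 < W) (x y u v u' v' : ℝ)
    (h : (|x - FS1_N W u| ≤ C ∧ |y - FS1_N W v| ≤ C) ∨ (|y - FS1_N W u| ≤ C ∧ |x - FS1_N W v| ≤ C))
    (hu : FS1_N W (u - u') ≤ 6 * C) (hv : FS1_N W (v - v') ≤ 6 * C) :
    |y - FS1_N W v'| ≤ 7 * C ∨ |y - FS1_N W u'| ≤ 7 * C := by
  rcases h with ⟨_, h2⟩ | ⟨h1, _⟩
  · left
    have h3 := FS1_N_sub W hW v v'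
    have h4 := abs_sub_le y (FS1_N W v) (FS1_N W v')
    linarith
  · right
    have h3 := FS1_N_sub W hW u u'
    have h4 := abs_sub_le y (FS1_N W u) (FS1_N W u')
    linarith

/-- two equal distances after a shift by `2 γ` -/
theorem FS1_two (W C : ℝ) (hW : 0 < W) (hC : 0 ≤ C) (t γ y : ℝ) (h1 : |y - FS1_N W t| ≤ C)
    (h2 : |y - FS1_N W (t + 2 * γ)| ≤ 7 * C) (hγ : 62 * C < FS1_N W (2 * γ)) :
    FS1_N W (2 * t + 2 * γ) ≤ 8 * C := by
  have h3 : |FS1_N W t - FS1_N W (t + 2 * γ)| ≤ 8 * C := by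
    have h4 := abs_sub_le (FS1_N W t) y (FS1_N W (t + 2 * γ))
    rw [abs_sub_comm (FS1_N W t) y] at h4
    linarith
  rcases FS1_N_or W hW t (t + 2 * γ) with h | h
  · have e : t - (t + 2 * γ) = -(2 * γ) := by ring
    rw [e, FS1_N_neg W hW] at h
    linarith
  · have e : t + (t + 2 * γ) = 2 * t + 2 * γ := by ring
    rw [e] at h
    linarith

/-- final contradiction -/
theorem FS1_contra (W C : ℝ) (hW : 0 < W) (hC : 0 ≤ C) (p q γ : ℝ)
    (h1 : FS1_N W (2 * (p - q) + 2 * γ) ≤ 8 * C)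
    (h2 : FS1_N W (2 * (p - q) - 2 * γ) ≤ 8 * C)
    (h3 : FS1_N W (2 * (p + q) + 2 * γ) ≤ 8 * C)
    (hs : 8 * C < |FS1_N W (p + q) - FS1_N W (p - q)|)
    (hγ : 62 * C < FS1_N W (2 * γ)) : False := by
  have a1 : 8 * C < FS1_N W (2 * q) := by
    have h := FS1_N_sub W hW (p + q) (p - q)
    have e : p + q - (p - q) = 2 * q := by ring
    rw [e] at h
    linarith
  have a2 : 8 * C < FS1_N W (2 * p) := by
    have h := FS1_N_sub W hW (p + q) (-(p - q))
    have e : p + q - -(p - q) = 2 * p := by ring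
    rw [e, FS1_N_neg W hW] at h
    linarith
  have b1 : FS1_N W (2 * (2 * p)) ≤ 16 * C := by
    have h := FS1_N_add W hW (2 * (p - q) - 2 * γ) (2 * (p + q) + 2 * γ)
    have e : 2 * (p - q) - 2 * γ + (2 * (p + q) + 2 * γ) = 2 * (2 * p) := by ring
    rw [e] at h
    linarith
  have b2 : FS1_N W (2 * (2 * q)) ≤ 16 * C := by
    have h := FS1_N_add W hW (2 * (p + q) + 2 * γ) (-(2 * (p - q) + 2 * γ))
    have e : 2 * (p + q) + 2 * γ + -(2 * (p - q) + 2 * γ) = 2 * (2 * q) := by ring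
    rw [e, FS1_N_neg W hW] at h
    linarith
  have c1 : FS1_N W (2 * p - W / 2) ≤ 8 * C := by
    rcases FS1_N_half W hW (2 * p) with h | h
    · linarith
    · linarith
  have c2 : FS1_N W (2 * q - W / 2) ≤ 8 * C := by
    rcases FS1_N_half W hW (2 * q) with h | h
    · linarith
    · linarith
  have d1 : FS1_N W (2 * (p - q)) ≤ 16 * C := by
    have h := FS1_N_add W hW (2 * p - W / 2) (-(2 * q - W / 2))
    have e : 2 * p - W / 2 + -(2 * q - W / 2) = 2 * (p - q) := by ring
    rw [e, FS1_N_neg W hW] at h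
    linarith
  have d2 : FS1_N W (2 * γ) ≤ 24 * C := by
    have h := FS1_N_add W hW (2 * (p - q) + 2 * γ) (-(2 * (p - q)))
    have e : 2 * (p - q) + 2 * γ + -(2 * (p - q)) = 2 * γ := by ring
    rw [e, FS1_N_neg W hW] at h
    linarith
  linarith

theorem st_FS1 : ST_FS1 := by
  classical
  refine ⟨31, by norm_num, ?_⟩
  intro W C hW hC f hf hf0 hfneg law ⟨g, hg1, hg2⟩
  set γ : ℝ := f g with hγdef
  have hγ : 62 * C < FS1_N W (2 * γ) := by
    rw [FS1_N_fold W hW (2 * γ) (by linarith [(hf g).1]) (by linarith [(hf g).2])]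
    refine lt_min ?_ ?_ <;> linarith
  -- choice of the signs
  have hT : ∀ a : ℤ, ∃ t : ℝ, (t = f a ∨ t = -f a) ∧ |f (a - g) - FS1_N W (t - γ)| ≤ C ∧
      |f (a + g) - FS1_N W (t + γ)| ≤ C := by
    intro a
    rcases FS1_law W C hW f hf law a g (f a) (f g) (Or.inl rfl) (Or.inl rfl) with h | h
    · exact ⟨f a, Or.inl rfl, h⟩
    · refine ⟨-f a, Or.inr rfl, ?_, ?_⟩
      · have e : FS1_N W (-f a - γ) = FS1_N W (f a + f g) := by
          rw [← FS1_N_neg W hW (f a + f g)]
          congr 1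
          rw [hγdef]
          ring
        rw [e]
        exact h.2
      · have e : FS1_N W (-f a + γ) = FS1_N W (f a - f g) := by
          rw [← FS1_N_neg W hW (f a - f g)]
          congr 1
          rw [hγdef]
          ring
        rw [e]
        exact h.1
  choose T hTs hTm hTp using hT
  have hTN : ∀ a : ℤ, FS1_N W (T a) = f a := by
    intro a
    have h1 : FS1_N W (f a) = f a := by
      rw [FS1_N_small W hW (f a) (by rw [abs_of_nonneg (hf a).1]; exact (hf a).2),
        abs_of_nonneg (hf a).1]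
    rcases hTs a with h | h
    · rw [h, h1]
    · rw [h, FS1_N_neg W hW, h1]
  -- Q
  have hQp : ∀ b : ℤ, FS1_N W (T (b + g) - (T b + γ)) ≤ 3 * C := by
    intro b
    have h1 : |FS1_N W (T (b + g)) - FS1_N W (T b + γ)| ≤ C := by
      rw [hTN]
      exact hTp b
    have h2 : |FS1_N W (T (b + g) + -γ) - FS1_N W (T b + γ + -γ)| ≤ C := by
      have e1 : T b + γ + -γ = T b := by ring
      have h3 := hTm (b + g)
      have e2 : b + g - g = b := by ring
      rw [e2] at h3
      rw [e1, hTN b, ← sub_eq_add_neg, abs_sub_comm]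
      exact h3
    have h3 : C + C < FS1_N W (2 * -γ) := by
      have e3 : 2 * -γ = -(2 * γ) := by ring
      rw [e3, FS1_N_neg W hW]
      linarith
    have h4 := FS1_det W hW (T (b + g)) (T b + γ) (-γ) C C h1 h2 h3
    linarith
  have hQm : ∀ b : ℤ, FS1_N W (T (b - g) - (T b - γ)) ≤ 3 * C := by
    intro b
    have h1 : |FS1_N W (T (b - g)) - FS1_N W (T b - γ)| ≤ C := by
      rw [hTN]
      exact hTm b
    have h2 : |FS1_N W (T (b - g) + γ) - FS1_N W (T b - γ + γ)| ≤ C := by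
      have e1 : T b - γ + γ = T b := by ring
      have h3 := hTp (b - g)
      have e2 : b - g + g = b := by ring
      rw [e2] at h3
      rw [e1, hTN b, abs_sub_comm]
      exact h3
    have h3 : C + C < FS1_N W (2 * γ) := by linarith
    have h4 := FS1_det W hW (T (b - g)) (T b - γ) γ C C h1 h2 h3
    linarith
  have hlaw : ∀ a b : ℤ,
      (|f (a - b) - FS1_N W (T a - T b)| ≤ C ∧ |f (a + b) - FS1_N W (T a + T b)| ≤ C) ∨
      (|f (a + b) - FS1_N W (T a - T b)| ≤ C ∧ |f (a - b) - FS1_N W (T a + T b)| ≤ C) :=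
    fun a b => FS1_law W C hW f hf law a b (T a) (T b) (hTs a) (hTs b)
  -- P
  have hP : ∀ a b : ℤ, |f (a + b) - FS1_N W (T a + T b)| ≤ 9 * C := by
    intro a b
    rcases hlaw a b with ⟨_, h2⟩ | ⟨h1, h2⟩
    · linarith
    · -- exchanged alternative; first : (a + g, b - g)
      have s1 : FS1_N W (T (a + g) - T (b - g) - (T a - T b + 2 * γ)) ≤ 6 * C := by
        have h := FS1_N_add W hW (T (a + g) - (T a + γ)) (-(T (b - g) - (T b - γ)))
        have e : T (a + g) - (T a + γ) + -(T (b - g) - (T b - γ)) =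
            T (a + g) - T (b - g) - (T a - T b + 2 * γ) := by ring
        rw [e, FS1_N_neg W hW] at h
        linarith [hQp a, hQm b]
      have s2 : FS1_N W (T (a + g) + T (b - g) - (T a + T b)) ≤ 6 * C := by
        have h := FS1_N_add W hW (T (a + g) - (T a + γ)) (T (b - g) - (T b - γ))
        have e : T (a + g) - (T a + γ) + (T (b - g) - (T b - γ)) =
            T (a + g) + T (b - g) - (T a + T b) := by ring
        rw [e] at h
        linarith [hQp a, hQm b]
      have L1 := hlaw (a + g) (b - g)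
      have eL1 : a + g + (b - g) = a + b := by ring
      rw [eL1] at L1
      rcases FS1_shift W C hW _ _ _ _ _ _ L1 s1 s2 with A1 | A1
      · linarith
      -- second : (a - g, b + g)
      have s3 : FS1_N W (T (a - g) - T (b + g) - (T a - T b + 2 * -γ)) ≤ 6 * C := by
        have h := FS1_N_add W hW (T (a - g) - (T a - γ)) (-(T (b + g) - (T b + γ)))
        have e : T (a - g) - (T a - γ) + -(T (b + g) - (T b + γ)) =
            T (a - g) - T (b + g) - (T a - T b + 2 * -γ) := by ring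
        rw [e, FS1_N_neg W hW] at h
        linarith [hQm a, hQp b]
      have s4 : FS1_N W (T (a - g) + T (b + g) - (T a + T b)) ≤ 6 * C := by
        have h := FS1_N_add W hW (T (a - g) - (T a - γ)) (T (b + g) - (T b + γ))
        have e : T (a - g) - (T a - γ) + (T (b + g) - (T b + γ)) =
            T (a - g) + T (b + g) - (T a + T b) := by ring
        rw [e] at h
        linarith [hQm a, hQp b]
      have L2 := hlaw (a - g) (b + g)
      have eL2 : a - g + (b + g) = a + b := by ring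
      rw [eL2] at L2
      rcases FS1_shift W C hW _ _ _ _ _ _ L2 s3 s4 with A2 | A2
      · linarith
      -- third : (a + g, b + g)
      have s5 : FS1_N W (T (a + g) - T (b + g) - (T a - T b)) ≤ 6 * C := by
        have h := FS1_N_add W hW (T (a + g) - (T a + γ)) (-(T (b + g) - (T b + γ)))
        have e : T (a + g) - (T a + γ) + -(T (b + g) - (T b + γ)) =
            T (a + g) - T (b + g) - (T a - T b) := by ring
        rw [e, FS1_N_neg W hW] at h
        linarith [hQp a, hQp b]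
      have s6 : FS1_N W (T (a + g) + T (b + g) - (T a + T b + 2 * γ)) ≤ 6 * C := by
        have h := FS1_N_add W hW (T (a + g) - (T a + γ)) (T (b + g) - (T b + γ))
        have e : T (a + g) - (T a + γ) + (T (b + g) - (T b + γ)) =
            T (a + g) + T (b + g) - (T a + T b + 2 * γ) := by ring
        rw [e] at h
        linarith [hQp a, hQp b]
      have L3 := hlaw (a + g) (b + g)
      have eL3 : a + g - (b + g) = a - b := by ring
      rw [eL3] at L3
      rcases FS1_shift W C hW _ _ _ _ _ _ (L3.imp And.symm And.symm) s6 s5 with A3 | A3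
      · -- f (a - b) close to N (T a - T b)
        have h3 := abs_sub_le (f (a + b)) (FS1_N W (T a - T b)) (f (a - b))
        rw [abs_sub_comm (FS1_N W (T a - T b)) (f (a - b))] at h3
        have h4 := abs_sub_le (f (a + b)) (f (a - b)) (FS1_N W (T a + T b))
        linarith
      -- contradiction or closeness
      by_cases hsep : |FS1_N W (T a + T b) - FS1_N W (T a - T b)| ≤ 8 * C
      · have h3 := abs_sub_le (f (a + b)) (FS1_N W (T a - T b)) (FS1_N W (T a + T b))
        rw [abs_sub_comm (FS1_N W (T a - T b)) (FS1_N W (T a + T b))] at h3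
        linarith
      · exfalso
        have hγ' : 62 * C < FS1_N W (2 * -γ) := by
          have e3 : 2 * -γ = -(2 * γ) := by ring
          rw [e3, FS1_N_neg W hW]
          exact hγ
        have B1 := FS1_two W C hW hC (T a - T b) γ (f (a + b)) h1 A1 hγ
        have B2 := FS1_two W C hW hC (T a - T b) (-γ) (f (a + b)) h1 A2 hγ'
        have B3 := FS1_two W C hW hC (T a + T b) γ (f (a - b)) h2 A3 hγ
        have e2 : 2 * (T a - T b) + 2 * -γ = 2 * (T a - T b) - 2 * γ := by ring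
        rw [e2] at B2
        exact FS1_contra W C hW hC (T a) (T b) γ B1 B2 B3 (not_le.mp hsep) hγ
  -- additivity
  refine ⟨T, hTs, fun a b => ?_⟩
  have h1 : |FS1_N W (T (a + b)) - FS1_N W (T a + T b)| ≤ 9 * C := by
    rw [hTN]
    exact hP a b
  have h2 : |FS1_N W (T (a + b) + γ) - FS1_N W (T a + T b + γ)| ≤ 13 * C := by
    have h3 := hTp (a + b)
    have h4 := hP a (b + g)
    have e4 : a + (b + g) = a + b + g := by ring
    rw [e4] at h4
    have h5 := FS1_N_sub W hW (T a + T (b + g)) (T a + T b + γ)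
    have e5 : T a + T (b + g) - (T a + T b + γ) = T (b + g) - (T b + γ) := by ring
    rw [e5] at h5
    have h6 := hQp b
    have h7 := abs_sub_le (FS1_N W (T (a + b) + γ)) (f (a + b + g)) (FS1_N W (T a + T b + γ))
    have h8 := abs_sub_le (f (a + b + g)) (FS1_N W (T a + T (b + g))) (FS1_N W (T a + T b + γ))
    rw [abs_sub_comm (FS1_N W (T (a + b) + γ)) (f (a + b + g))] at h7
    linarith
  have h3 := FS1_det W hW (T (a + b)) (T a + T b) γ (9 * C) (13 * C) h1 h2 (by linarith)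
  obtain ⟨m, hm⟩ := FS1_N_ex W (T (a + b) - (T a + T b))
  refine ⟨m, ?_⟩
  rw [hm] at h3
  have e : T (a + b) - T a - T b - (m : ℝ) * W = T (a + b) - (T a + T b) - (m : ℝ) * W := by ring
  rw [e]
  linarith

end Pool.Agent.Helper42.LK
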