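import Pool.Agent.Helper99.LK.FS1

namespace Pool.Agent.Helper42.LK

open Pool.Agent.Helper42.LS

theorem FST_nd_nonneg (t : ℝ) : 0 ≤ nd t := by
  unfold nd
  refine le_min (Int.fract_nonneg t) ?_
  linarith [Int.fract_lt_one t]

theorem FST_nd_zero : nd 0 = 0 := by
  unfold nd
  rw [Int.fract_zero]
  norm_num

theorem FST_nd_int (m : ℤ) : nd (m : ℝ) = 0 := by
  unfold nd
  rw [Int.fract_intCast]
  norm_num

theorem FST_nd_half (m : ℤ) : nd ((m : ℝ) + 1 / 2) = 1 / 2 := by
  have h : Int.fract ((m : ℝ) + 1 / 2) = 1 / 2 := by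
    rw [Int.fract_intCast_add]
    exact Int.fract_eq_self.mpr ⟨by norm_num, by norm_num⟩
  unfold nd
  rw [h]
  norm_num

theorem FST_N_nd (W : ℝ) (hW : 0 < W) (x : ℝ) : FS1_N W x = W * nd (x / W) := by
  have h1 : x = Int.fract (x / W) * W + (⌊x / W⌋ : ℝ) * W := by
    have h2 := Int.fract_add_floor (x / W)
    calc x = x / W * W := by field_simp
      _ = (Int.fract (x / W) + (⌊x / W⌋ : ℝ)) * W := by rw [h2]
      _ = _ := by ring
  have h2 : FS1_N W x = FS1_N W (Int.fract (x / W) * W) := by
    conv_lhs => rw [h1]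
    exact FS1_N_per W hW _ _
  have h0 := Int.fract_nonneg (x / W)
  have h3 := Int.fract_lt_one (x / W)
  rw [h2, FS1_N_fold W hW _ (mul_nonneg h0 hW.le) (by nlinarith)]
  unfold nd
  rw [mul_min_of_nonneg _ _ hW.le]
  congr 1
  · ring
  · ring

/-- the class of `k` -/
theorem FST_class (W K C : ℝ) (hK : 1 ≤ K) (hC : 0 ≤ C) (hWK : 10 * (K * C) < W)
    (f : ℤ → ℝ)
    (law : ∀ a b : ℤ,
      (|f (a - b) - abs (f a - f b)| ≤ C ∧ |f (a + b) - min (f a + f b) (W - (f a + f b))| ≤ C) ∨
      (|f (a + b) - abs (f a - f b)| ≤ C ∧ |f (a - b) - min (f a + f b) (W - (f a + f b))| ≤ C))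
    (hf : ∀ k : ℤ, 0 ≤ f k ∧ f k ≤ W / 2)
    (hcl : ∀ k : ℤ, f k ≤ K * C ∨ W / 2 - K * C ≤ f k) (a b : ℤ) :
    (f a ≤ K * C → f b ≤ K * C → f (a + b) ≤ K * C) ∧
    (f a ≤ K * C → W / 2 - K * C ≤ f b → W / 2 - K * C ≤ f (a + b)) ∧
    (W / 2 - K * C ≤ f a → f b ≤ K * C → W / 2 - K * C ≤ f (a + b)) ∧
    (W / 2 - K * C ≤ f a → W / 2 - K * C ≤ f b → f (a + b) ≤ K * C) := by
  have hKC : C ≤ K * C := le_mul_of_one_le_left hC hK
  have ha := hf a
  have hb := hf b
  have key : |f (a + b) - abs (f a - f b)| ≤ C ∨
      |f (a + b) - min (f a + f b) (W - (f a + f b))| ≤ C := by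
    rcases law a b with h | h
    · exact Or.inr h.2
    · exact Or.inl h.1
  have hab := hcl (a + b)
  refine ⟨fun h1 h2 => ?_, fun h1 h2 => ?_, fun h1 h2 => ?_, fun h1 h2 => ?_⟩
  · rcases hab with h | h
    · exact h
    · exfalso
      rcases key with h3 | h3
      · have h4 : |f a - f b| ≤ K * C := by
          rw [abs_le]
          constructor <;> linarith
        have h5 := (abs_le.mp h3).2
        linarith
      · have h4 : min (f a + f b) (W - (f a + f b)) ≤ 2 * (K * C) :=
          (min_le_left _ _).trans (by linarith)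
        have h5 := (abs_le.mp h3).2
        linarith
  · rcases hab with h | h
    · exfalso
      rcases key with h3 | h3
      · have h4 : W / 2 - 2 * (K * C) ≤ |f a - f b| := by
          rw [abs_sub_comm]
          exact le_trans (by linarith) (le_abs_self _)
        have h5 := (abs_le.mp h3).1
        linarith
      · have h4 : W / 2 - 2 * (K * C) ≤ min (f a + f b) (W - (f a + f b)) :=
          le_min (by linarith) (by linarith)
        have h5 := (abs_le.mp h3).1
        linarith
    · exact h
  · rcases hab with h | h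
    · exfalso
      rcases key with h3 | h3
      · have h4 : W / 2 - 2 * (K * C) ≤ |f a - f b| :=
          le_trans (by linarith) (le_abs_self _)
        have h5 := (abs_le.mp h3).1
        linarith
      · have h4 : W / 2 - 2 * (K * C) ≤ min (f a + f b) (W - (f a + f b)) :=
          le_min (by linarith) (by linarith)
        have h5 := (abs_le.mp h3).1
        linarith
    · exact h
  · rcases hab with h | h
    · exact h
    · exfalso
      rcases key with h3 | h3
      · have h4 : |f a - f b| ≤ K * C := by
          rw [abs_le]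
          constructor <;> linarith
        have h5 := (abs_le.mp h3).2
        linarith
      · have h4 : min (f a + f b) (W - (f a + f b)) ≤ 2 * (K * C) :=
          (min_le_right _ _).trans (by linarith)
        have h5 := (abs_le.mp h3).2
        linarith

theorem st_FST (h1 : ST_FS1) (hRC : ST_RC) : ST_FST := by
  obtain ⟨K, hK, hFS⟩ := h1
  refine ⟨8 * K, ?_⟩
  intro W C hW hC f hf hf0 hfneg law
  have hK0 : 0 ≤ K := by linarith
  have hKC : 0 ≤ K * C := mul_nonneg hK0 hC
  by_cases hg : ∃ g : ℤ, K * C < f g ∧ f g < W / 2 - K * C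
  · obtain ⟨T, hT, hadd⟩ := hFS W C hW hC f hf hf0 hfneg law hg
    have habsT : ∀ k : ℤ, |T k| = f k := by
      intro k
      rcases hT k with h | h
      · rw [h, abs_of_nonneg (hf k).1]
      · rw [h, abs_neg, abs_of_nonneg (hf k).1]
    obtain ⟨τ, hτ⟩ := hRC W (K * C) hW hKC (fun k : ℕ => T (k : ℤ))
      (fun k _ => by
        show |T (k : ℤ)| ≤ W
        rw [habsT]
        linarith [(hf (k : ℤ)).2])
      (fun k l _ _ => by
        obtain ⟨m, hm⟩ := hadd (k : ℤ) (l : ℤ)
        refine ⟨m, ?_⟩
        show |T ((k + l : ℕ) : ℤ) - T (k : ℤ) - T (l : ℤ) - m * W| ≤ K * C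
        rw [Nat.cast_add]
        exact hm)
    refine ⟨τ / W, fun k hk => ?_⟩
    obtain ⟨m, hm⟩ := hτ k hk
    have hm' : |T (k : ℤ) - k * τ - m * W| ≤ 8 * (K * C) := hm
    have e1 : f k = FS1_N W (T (k : ℤ)) := by
      rw [FS1_N_small W hW (T (k : ℤ)) (by rw [habsT]; exact (hf (k : ℤ)).2), habsT]
    have e2 : W * nd (k * (τ / W)) = FS1_N W (k * τ) := by
      rw [FST_N_nd W hW]
      congr 2
      ring
    rw [e2, e1]
    have h3 := FS1_N_sub W hW (T (k : ℤ)) (k * τ)
    have h4 := FS1_N_le W hW (T (k : ℤ) - k * τ) m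
    have h5 : 8 * K * C = 8 * (K * C) := by ring
    rw [h5]
    exact (h3.trans h4).trans hm'
  · push Not at hg
    have hcl : ∀ k : ℤ, f k ≤ K * C ∨ W / 2 - K * C ≤ f k := by
      intro k
      by_cases h : f k ≤ K * C
      · exact Or.inl h
      · exact Or.inr (hg k (not_le.mp h))
    by_cases hWK : W ≤ 10 * (K * C)
    · refine ⟨0, fun k _ => ?_⟩
      rw [mul_zero, FST_nd_zero, mul_zero, sub_zero, abs_of_nonneg (hf k).1]
      have := (hf k).2
      have h5 : 8 * K * C = 8 * (K * C) := by ring
      linarith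
    · have hWK' : 10 * (K * C) < W := not_le.mp hWK
      have hcls := FST_class W K C hK hC hWK' f law hf hcl
      have h5 : 8 * K * C = 8 * (K * C) := by ring
      rcases hcl 1 with h | h
      · -- everything is small
        have hall : ∀ n : ℕ, f (n : ℤ) ≤ K * C := by
          intro n
          induction n with
          | zero =>
            rw [Nat.cast_zero, hf0]
            exact hKC
          | succ n ih =>
            rw [Nat.cast_succ]
            exact (hcls n 1).1 ih h
        refine ⟨0, fun k _ => ?_⟩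
        rw [mul_zero, FST_nd_zero, mul_zero, sub_zero, abs_of_nonneg (hf k).1]
        have := hall k
        linarith
      · have hall : ∀ n : ℕ, f ((2 * n : ℕ) : ℤ) ≤ K * C ∧
            W / 2 - K * C ≤ f ((2 * n + 1 : ℕ) : ℤ) := by
          intro n
          induction n with
          | zero =>
            constructor
            · rw [Nat.mul_zero, Nat.cast_zero, hf0]
              exact hKC
            · rw [Nat.mul_zero, Nat.zero_add, Nat.cast_one]
              exact h
          | succ n ih =>
            have h6 : f ((2 * (n + 1) : ℕ) : ℤ) ≤ K * C := by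
              have e : ((2 * (n + 1) : ℕ) : ℤ) = ((2 * n + 1 : ℕ) : ℤ) + 1 := by
                push_cast
                ring
              rw [e]
              exact (hcls _ 1).2.2.2 ih.2 h
            refine ⟨h6, ?_⟩
            have e : ((2 * (n + 1) + 1 : ℕ) : ℤ) = ((2 * (n + 1) : ℕ) : ℤ) + 1 := by
              push_cast
              ring
            rw [e]
            exact (hcls _ 1).2.1 h6 h
        refine ⟨1 / 2, fun k _ => ?_⟩
        rcases Nat.even_or_odd' k with ⟨j, hj | hj⟩
        · have e : (k : ℝ) * (1 / 2) = ((j : ℤ) : ℝ) := by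
            rw [hj]
            push_cast
            ring
          rw [e, FST_nd_int, mul_zero, sub_zero, abs_of_nonneg (hf k).1]
          have := (hall j).1
          rw [← hj] at this
          linarith
        · have e : (k : ℝ) * (1 / 2) = ((j : ℤ) : ℝ) + 1 / 2 := by
            rw [hj]
            push_cast
            ring
          rw [e, FST_nd_half]
          have h7 := (hall j).2
          rw [← hj] at h7
          have h8 := (hf (k : ℤ)).2
          rw [abs_le]
          constructor <;> linarith

end Pool.Agent.Helper42.LK
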